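import Mathlib

set_option autoImplicit false

open MeasureTheory Filter Set

namespace Pool.Agent.Results.MP_98de44_an.ErgodicSquareWM

universe u

section Definitions

variable {Y : Type u} [MeasurableSpace Y]

/-- `T` is an invertible measure-preserving transformation of `(Y, ν)`: it is measurable,
`ν (T⁻¹ A) = ν A` for every measurable set `A`, and it has a measurable inverse modulo null
sets. (A measurable bijection with measurable inverse is a special case.) -/
structure IsInvertibleMeasurePreserving (T : Y → Y) (ν : Measure Y) : Prop where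
  measurable : Measurable T
  preserves : ∀ A : Set Y, MeasurableSet A → ν (T ⁻¹' A) = ν A
  invertible : ∃ T' : Y → Y, Measurable T' ∧ (∀ᵐ y ∂ν, T' (T y) = y) ∧ (∀ᵐ y ∂ν, T (T' y) = y)

/-- `S` is ergodic: every measurable set `A` with `S⁻¹ A = A` is null or has a null complement. -/
def IsErgodicMap (S : Y → Y) (ν : Measure Y) : Prop :=
  ∀ A : Set Y, MeasurableSet A → S ⁻¹' A = A → ν A = 0 ∨ ν Aᶜ = 0

/-- `S` is conservative: every measurable wandering set (a set `W` whose preimages `S⁻ⁿ W`,
`n ≥ 0`, are pairwise disjoint) is null. -/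
def IsConservativeMap (S : Y → Y) (ν : Measure Y) : Prop :=
  ∀ W : Set Y, MeasurableSet W →
    (Pairwise fun m n : ℕ => Disjoint (S^[m] ⁻¹' W) (S^[n] ⁻¹' W)) → ν W = 0

/-- `S` is weakly mixing: it is ergodic and conservative and every eigenfunction of it is a.e.
constant. Eigenfunctions are not even required to be bounded here, so in particular there is no
nonconstant `L^∞` eigenfunction. -/
structure IsWeaklyMixing (S : Y → Y) (ν : Measure Y) : Prop where
  ergodic : IsErgodicMap S ν
  conservative : IsConservativeMap S ν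
  eigenfunctions : ∀ (f : Y → ℂ) (c : ℂ), AEMeasurable f ν → (∀ᵐ y ∂ν, f (S y) = c * f y) →
    ∃ a : ℂ, ∀ᵐ y ∂ν, f y = a

end Definitions

section Conservative

variable {Y : Type u} [MeasurableSpace Y]

/-- An ergodic invertible measure-preserving map of a standard Borel space with a measure
without atoms is conservative. -/
lemma conservative_of_ergodic [StandardBorelSpace Y] {ν : Measure Y} (hna : ∀ y : Y, ν {y} = 0)
    {S S' : Y → Y} (hS : Ergodic S ν) (hS' : MeasurePreserving S' ν ν)
    (h1 : ∀ᵐ y ∂ν, S' (S y) = y) (h2 : ∀ᵐ y ∂ν, S (S' y) = y) : IsConservativeMap S ν := by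
  intro W hW hdis
  by_contra hne
  -- iterates of the inverse
  have hit : ∀ n : ℕ, ∀ᵐ y ∂ν, S^[n] (S'^[n] y) = y := by
    intro n
    induction n with
    | zero => exact Eventually.of_forall fun y => rfl
    | succ n ih =>
      have h3 : ∀ᵐ y ∂ν, S (S' (S'^[n] y)) = S'^[n] y :=
        (hS'.iterate n).quasiMeasurePreserving.ae h2
      filter_upwards [ih, h3] with y hy1 hy2
      rw [Function.iterate_succ_apply, Function.iterate_succ_apply', hy2, hy1]
  have hWW : ∀ n : ℕ, ∀ y ∈ W, S^[n + 1] y ∉ W := by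
    intro n y hy hy'
    have := hdis (i := n + 1) (j := 0) (by omega)
    exact Set.disjoint_left.1 this hy' hy
  -- the zero-one law on `W`
  have key : ∀ A : Set Y, MeasurableSet A → A ⊆ W → ν A ≠ 0 → ν (W \ A) = 0 := by
    intro A hA hAW hA0
    set I : Set Y := {y | (∃ n : ℕ, S^[n] y ∈ A) ∨ ∃ n : ℕ, S'^[n + 1] y ∈ A} with hI
    have hIm : MeasurableSet I := by
      have : I = (⋃ n : ℕ, S^[n] ⁻¹' A) ∪ (⋃ n : ℕ, S'^[n + 1] ⁻¹' A) := by
        ext y; simp [hI]
      rw [this]
      exact (MeasurableSet.iUnion fun n => (hS.measurable.iterate n) hA).union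
        (MeasurableSet.iUnion fun n => (hS'.measurable.iterate (n + 1)) hA)
    -- `I` is invariant up to null sets
    have hinv : S ⁻¹' I =ᵐ[ν] I := by
      filter_upwards [h1] with y hy
      apply propext
      show ((∃ n : ℕ, S^[n] (S y) ∈ A) ∨ ∃ n : ℕ, S'^[n + 1] (S y) ∈ A) ↔
        ((∃ n : ℕ, S^[n] y ∈ A) ∨ ∃ n : ℕ, S'^[n + 1] y ∈ A)
      simp only [Function.iterate_succ_apply, hy]
      constructor
      · rintro (⟨n, hn⟩ | ⟨n, hn⟩)
        · exact Or.inl ⟨n + 1, by rwa [Function.iterate_succ_apply]⟩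
        · rcases n with _ | n
          · exact Or.inl ⟨0, hn⟩
          · exact Or.inr ⟨n, by rwa [Function.iterate_succ_apply] at hn⟩
      · rintro (⟨n, hn⟩ | ⟨n, hn⟩)
        · rcases n with _ | n
          · exact Or.inr ⟨0, hn⟩
          · exact Or.inl ⟨n, by rwa [Function.iterate_succ_apply] at hn⟩
        · exact Or.inr ⟨n + 1, by rwa [Function.iterate_succ_apply]⟩
    rcases hS.quasiErgodic.ae_mem_or_ae_notMem₀ hIm.nullMeasurableSet hinv with hc | hc
    · -- `I` is conull, so almost every point of `W \ A` lies in `I`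
      have hall : ∀ᵐ y ∂ν, ∀ n : ℕ, S^[n] (S'^[n] y) = y := ae_all_iff.2 hit
      have : ∀ᵐ y ∂ν, y ∉ W \ A := by
        filter_upwards [hc, hall] with y hy hn hyW
        rcases hy with ⟨n, hy⟩ | ⟨n, hy⟩
        · rcases n with _ | n
          · exact hyW.2 hy
          · exact hWW n y hyW.1 (hAW hy)
        · refine hWW n (S'^[n + 1] y) (hAW hy) ?_
          rw [hn (n + 1)]
          exact hyW.1
      rw [ae_iff] at this
      simp only [not_not] at this
      exact this
    · exfalso
      apply hA0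
      have hsub : A ⊆ I := fun y hy => Or.inl ⟨0, hy⟩
      have : ν I = 0 := by
        rw [ae_iff] at hc
        simpa using hc
      exact measure_mono_null hsub this
  -- hence the measure restricted to `W` is concentrated at one point
  have hWr : NeZero (ν.restrict W) := ⟨by rwa [Ne, Measure.restrict_eq_zero]⟩
  have hnt : Nonempty Y := by
    by_contra h
    rw [not_nonempty_iff] at h
    apply hne
    rw [Set.eq_empty_of_isEmpty W, measure_empty]
  obtain ⟨a, ha⟩ := exists_singleton_mem_of_forall_separating (l := ae (ν.restrict W))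
    MeasurableSet (by
      intro U hU
      by_cases h0 : ν (W ∩ U) = 0
      · right
        rw [mem_ae_iff, compl_compl, Measure.restrict_apply hU, Set.inter_comm]
        exact h0
      · left
        rw [mem_ae_iff, Measure.restrict_apply hU.compl]
        have := key (W ∩ U) (hW.inter hU) Set.inter_subset_left h0
        rwa [Set.sdiff_self_inter, Set.sdiff_eq, Set.inter_comm] at this)
  apply hne
  rw [mem_ae_iff, Measure.restrict_apply (measurableSet_singleton a).compl] at ha
  have : W ⊆ ({a}ᶜ ∩ W) ∪ {a} := by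
    intro y hy
    by_cases h : y = a
    · exact Or.inr h
    · exact Or.inl ⟨h, hy⟩
  exact measure_mono_null this (measure_union_null ha (hna a))

end Conservative

section Eigen

variable {X : Type u} [MeasurableSpace X] {μ : Measure X}

/-- An a.e. eigenfunction with eigenvalue `0` of a measure preserving map vanishes a.e. -/
lemma ae_zero_of_comp_zero {ν : Measure X} {S : X → X}
    (hS : MeasurePreserving S ν ν) {f : X → ℂ} (hf : Measurable f)
    (h0 : ∀ᵐ p ∂ν, f (S p) = 0) : ∀ᵐ p ∂ν, f p = 0 := by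
  have hm : MeasurableSet {p : X | ¬ f p = 0} :=
    (measurableSet_eq_fun hf measurable_const).compl
  rw [ae_iff] at h0 ⊢
  rw [← hS.measure_preimage hm.nullMeasurableSet]
  exact h0

/-- For an ergodic map, an a.e. eigenfunction is a.e. zero, or is a.e. nonzero and its
eigenvalue is nonzero. -/
lemma zero_or_nonzero {ν : Measure X} {S : X → X}
    (hS : Ergodic S ν) {f : X → ℂ} (hf : Measurable f) {c : ℂ}
    (h : ∀ᵐ p ∂ν, f (S p) = c * f p) :
    (∀ᵐ p ∂ν, f p = 0) ∨ ((∀ᵐ p ∂ν, f p ≠ 0) ∧ c ≠ 0) := by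
  by_cases hc : c = 0
  · left
    refine ae_zero_of_comp_zero hS.toMeasurePreserving hf ?_
    filter_upwards [h] with p hp
    rw [hp, hc, zero_mul]
  · have hm : MeasurableSet {p : X | f p = 0} := measurableSet_eq_fun hf measurable_const
    have hinv : S ⁻¹' {p : X | f p = 0} =ᵐ[ν] {p : X | f p = 0} := by
      filter_upwards [h] with p hp
      apply propext
      show f (S p) = 0 ↔ f p = 0
      rw [hp]
      simp [hc]
    rcases hS.quasiErgodic.ae_mem_or_ae_notMem₀ hm.nullMeasurableSet hinv with h1 | h1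
    · left; exact h1
    · right; exact ⟨h1, hc⟩

/-- If the Cartesian square is ergodic, then every a.e. eigenfunction of `T` is a.e. constant. -/
lemma eigen_const [SigmaFinite μ] {T : X → X} (hT : MeasurePreserving T μ μ)
    (hS : Ergodic (Prod.map T T) (μ.prod μ)) {h : X → ℂ} (hh : Measurable h) {a : ℂ}
    (he : ∀ᵐ x ∂μ, h (T x) = a * h x) : ∃ k : ℂ, ∀ᵐ x ∂μ, h x = k := by
  by_cases hz : ∀ᵐ x ∂μ, h x = 0
  · exact ⟨0, hz⟩
  have ha : a ≠ 0 := by
    intro ha
    apply hz
    refine ae_zero_of_comp_zero hT hh ?_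
    filter_upwards [he] with p hp
    rw [hp, ha, zero_mul]
  have hF : Measurable (fun p : X × X => h p.2 / h p.1) :=
    (hh.comp measurable_snd).div (hh.comp measurable_fst)
  have h1 : ∀ᵐ p ∂(μ.prod μ), h (T p.1) = a * h p.1 :=
    (Measure.quasiMeasurePreserving_fst (μ := μ) (ν := μ)).ae he
  have h2 : ∀ᵐ p ∂(μ.prod μ), h (T p.2) = a * h p.2 :=
    (Measure.quasiMeasurePreserving_snd (μ := μ) (ν := μ)).ae he
  have hinv : (fun p : X × X => h p.2 / h p.1) ∘ (Prod.map T T)
      =ᵐ[μ.prod μ] (fun p : X × X => h p.2 / h p.1) := by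
    filter_upwards [h1, h2] with p hp1 hp2
    show h (T p.2) / h (T p.1) = h p.2 / h p.1
    rw [hp1, hp2, mul_div_mul_left _ _ ha]
  obtain ⟨k, hk⟩ := hS.ae_eq_const_of_ae_eq_comp_ae hF.aestronglyMeasurable hinv
  have hk2 := Measure.ae_ae_of_ae_prod hk
  have hex : ∃ᵐ x ∂μ, h x ≠ 0 := by
    rw [Filter.Frequently]
    simpa using hz
  obtain ⟨x, hx0, hx⟩ := (hex.and_eventually hk2).exists
  refine ⟨k * h x, ?_⟩
  filter_upwards [hx] with y hy
  have hy' : h y / h x = k := hy
  rw [div_eq_iff hx0] at hy'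
  exact hy'

/-- Eigenfunctions of an ergodic Cartesian square are a.e. constant. -/
lemma eigen_square [SigmaFinite μ] {T : X → X} (hT : MeasurePreserving T μ μ)
    (hS : Ergodic (Prod.map T T) (μ.prod μ)) {f : X × X → ℂ} (hf : Measurable f) {c : ℂ}
    (hfc' : ∀ᵐ p ∂(μ.prod μ), f (Prod.map T T p) = c * f p) :
    ∃ k : ℂ, ∀ᵐ p ∂(μ.prod μ), f p = k := by
  rcases zero_or_nonzero hS hf hfc' with hz | ⟨hnz, hc⟩
  · exact ⟨0, hz⟩
  have hTm : Measurable T := hT.measurable
  -- first coordinate
  have hA : MeasurePreserving (Prod.map T (id : X → X)) (μ.prod μ) (μ.prod μ) :=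
    hT.prod (MeasurePreserving.id μ)
  have hB : MeasurePreserving (Prod.map (id : X → X) T) (μ.prod μ) (μ.prod μ) :=
    (MeasurePreserving.id μ).prod hT
  have hA1 : ∀ᵐ p ∂(μ.prod μ), f (T (T p.1), T p.2) = c * f (T p.1, p.2) :=
    hA.quasiMeasurePreserving.ae hfc'
  have hB1 : ∀ᵐ p ∂(μ.prod μ), f (T p.1, T (T p.2)) = c * f (p.1, T p.2) :=
    hB.quasiMeasurePreserving.ae hfc'
  have hFA : Measurable (fun p : X × X => f (T p.1, p.2)) :=
    hf.comp ((hTm.comp measurable_fst).prodMk measurable_snd)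
  have hFB : Measurable (fun p : X × X => f (p.1, T p.2)) :=
    hf.comp (measurable_fst.prodMk (hTm.comp measurable_snd))
  have hfc'' : ∀ᵐ p ∂(μ.prod μ), f (T p.1, T p.2) = c * f p := hfc'
  obtain ⟨a, ha⟩ : ∃ a : ℂ, (fun p : X × X => f (T p.1, p.2) / f p)
      =ᵐ[μ.prod μ] Function.const _ a := by
    refine hS.ae_eq_const_of_ae_eq_comp_ae (hFA.div hf).aestronglyMeasurable ?_
    filter_upwards [hfc'', hA1] with p hp1 hp2
    show f (T (T p.1), T p.2) / f (T p.1, T p.2) = f (T p.1, p.2) / f p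
    rw [hp1, hp2, mul_div_mul_left _ _ hc]
  obtain ⟨b, hb⟩ : ∃ b : ℂ, (fun p : X × X => f (p.1, T p.2) / f p)
      =ᵐ[μ.prod μ] Function.const _ b := by
    refine hS.ae_eq_const_of_ae_eq_comp_ae (hFB.div hf).aestronglyMeasurable ?_
    filter_upwards [hfc'', hB1] with p hp1 hp2
    show f (T p.1, T (T p.2)) / f (T p.1, T p.2) = f (p.1, T p.2) / f p
    rw [hp1, hp2, mul_div_mul_left _ _ hc]
  have ha' : ∀ᵐ p ∂(μ.prod μ), f (T p.1, p.2) = a * f p := by
    filter_upwards [ha, hnz] with p hp hp0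
    have hp' : f (T p.1, p.2) / f p = a := hp
    rwa [div_eq_iff hp0] at hp'
  have hb' : ∀ᵐ p ∂(μ.prod μ), f (p.1, T p.2) = b * f p := by
    filter_upwards [hb, hnz] with p hp hp0
    have hp' : f (p.1, T p.2) / f p = b := hp
    rwa [div_eq_iff hp0] at hp'
  -- the fibres in the second coordinate are a.e. constant
  have hfib2 : ∀ᵐ x ∂μ, ∀ᵐ y ∂μ, f (x, T y) = f (x, y) := by
    filter_upwards [Measure.ae_ae_of_ae_prod hb'] with x hx
    obtain ⟨k, hk⟩ := eigen_const hT hS (hf.comp (measurable_const.prodMk measurable_id))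
      (h := fun y => f (x, y)) hx
    have hk' : ∀ᵐ y ∂μ, f (x, T y) = k := hT.quasiMeasurePreserving.ae hk
    filter_upwards [hk, hk'] with y h1 h2
    rw [h1, h2]
  have hfib1 : ∀ᵐ y ∂μ, ∀ᵐ x ∂μ, f (T x, y) = f (x, y) := by
    have hsw : ∀ᵐ p ∂(μ.prod μ), f (T p.2, p.1) = a * f (p.2, p.1) :=
      (Measure.measurePreserving_swap (μ := μ) (ν := μ)).quasiMeasurePreserving.ae ha'
    filter_upwards [Measure.ae_ae_of_ae_prod hsw] with y hy
    obtain ⟨k, hk⟩ := eigen_const hT hS (hf.comp (measurable_id.prodMk measurable_const))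
      (h := fun x => f (x, y)) hy
    have hk' : ∀ᵐ x ∂μ, f (T x, y) = k := hT.quasiMeasurePreserving.ae hk
    filter_upwards [hk, hk'] with x h1 h2
    rw [h1, h2]
  have h2 : ∀ᵐ p ∂(μ.prod μ), f (p.1, T p.2) = f p := by
    have hm : MeasurableSet {p : X × X | f (p.1, T p.2) = f p} := measurableSet_eq_fun hFB hf
    exact (Measure.ae_prod_iff_ae_ae hm).2 hfib2
  have h1 : ∀ᵐ p ∂(μ.prod μ), f (T p.1, p.2) = f p := by
    have hm : MeasurableSet {p : X × X | f (T p.2, p.1) = f (p.2, p.1)} :=
      measurableSet_eq_fun (hFA.comp measurable_swap) (hf.comp measurable_swap)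
    have h3 : ∀ᵐ p ∂(μ.prod μ), f (T p.2, p.1) = f (p.2, p.1) :=
      (Measure.ae_prod_iff_ae_ae hm).2 hfib1
    exact (Measure.measurePreserving_swap (μ := μ) (ν := μ)).quasiMeasurePreserving.ae h3
  have h12 : ∀ᵐ p ∂(μ.prod μ), f (T p.1, T p.2) = f (p.1, T p.2) :=
    hB.quasiMeasurePreserving.ae h1
  obtain ⟨k, hk⟩ := hS.ae_eq_const_of_ae_eq_comp_ae (g := f) hf.aestronglyMeasurable (by
    filter_upwards [h12, h2] with p hp1 hp2
    show f (T p.1, T p.2) = f p
    rw [hp1, hp2])
  exact ⟨k, hk⟩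

end Eigen

/-- Let `T` be an invertible measure-preserving transformation of a standard Borel space with a
`σ`-finite nonatomic measure `μ` (in a standard Borel space this means that points are null;
`μ X = ∞` is allowed but not needed). If `T × T` is ergodic, then `T × T` is weakly mixing. -/
theorem result {X : Type u} [MeasurableSpace X] [StandardBorelSpace X] (μ : Measure X)
    [SigmaFinite μ] (hna : ∀ x : X, μ {x} = 0) (T : X → X)
    (hT : IsInvertibleMeasurePreserving T μ)
    (hTT : IsErgodicMap (Prod.map T T) (μ.prod μ)) :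
    IsWeaklyMixing (Prod.map T T) (μ.prod μ) := by
  obtain ⟨hm, hp, T', hT'm, h1, h2⟩ := hT
  have hTp : MeasurePreserving T μ μ :=
    ⟨hm, by ext A hA; rw [Measure.map_apply hm hA, hp A hA]⟩
  have hT'p : MeasurePreserving T' μ μ := by
    refine ⟨hT'm, ?_⟩
    ext A hA
    rw [Measure.map_apply hT'm hA, ← hp _ (hT'm hA)]
    apply measure_congr
    filter_upwards [h1] with x hx
    apply propext
    show T' (T x) ∈ A ↔ x ∈ A
    rw [hx]
  have hSp : MeasurePreserving (Prod.map T T) (μ.prod μ) (μ.prod μ) := hTp.prod hTp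
  have hS'p : MeasurePreserving (Prod.map T' T') (μ.prod μ) (μ.prod μ) := hT'p.prod hT'p
  have hS : Ergodic (Prod.map T T) (μ.prod μ) := by
    refine ⟨hSp, ⟨?_⟩⟩
    intro s hs hs'
    rw [eventuallyConst_set]
    rcases hTT s hs hs' with h | h
    · right
      rw [ae_iff]
      simpa using h
    · left
      rw [ae_iff]
      exact h
  refine ⟨hTT, ?_, ?_⟩
  · have hna2 : ∀ p : X × X, μ.prod μ {p} = 0 := by
      intro p
      rw [← Set.singleton_prod_singleton, Measure.prod_prod, hna, zero_mul]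
    refine conservative_of_ergodic hna2 hS hS'p ?_ ?_
    · have ha := (Measure.quasiMeasurePreserving_fst (μ := μ) (ν := μ)).ae h1
      have hb := (Measure.quasiMeasurePreserving_snd (μ := μ) (ν := μ)).ae h1
      filter_upwards [ha, hb] with p hpa hpb
      exact Prod.ext hpa hpb
    · have ha := (Measure.quasiMeasurePreserving_fst (μ := μ) (ν := μ)).ae h2
      have hb := (Measure.quasiMeasurePreserving_snd (μ := μ) (ν := μ)).ae h2
      filter_upwards [ha, hb] with p hpa hpb
      exact Prod.ext hpa hpb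
  · intro f c hf hfc
    have he : ∀ᵐ p ∂(μ.prod μ), f p = hf.mk f p := hf.ae_eq_mk
    have he' : ∀ᵐ p ∂(μ.prod μ), f (Prod.map T T p) = hf.mk f (Prod.map T T p) :=
      hSp.quasiMeasurePreserving.ae he
    obtain ⟨k, hk⟩ := eigen_square hTp hS hf.measurable_mk (c := c) (by
      filter_upwards [he, he', hfc] with p hp1 hp2 hp3
      rw [← hp1, ← hp2, hp3])
    refine ⟨k, ?_⟩
    filter_upwards [he, hk] with p hp1 hp2
    rw [hp1, hp2]

end Pool.Agent.Results.MP_98de44_an.ErgodicSquareWM
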